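import Pool.Agent.N86.S10.Main

/-!
# Block-transitive `6`-designs: the affine groups, `λ` odd

By Cameron and Praeger a block-transitive group of automorphisms of a nontrivial `6`-design is an affine
group `AGL(d, 2)` or lies between `PSL(2, q)` and `PΓL(2, q)`.  Here `AGL(d, 2)` is excluded for all odd `λ`.

Proof.  Let `U` be the group of the unitriangular linear maps of `V = F_2^d`, a `2`-group, and let `V_n` be
the space of the first `n` coordinates.  The set `V_1 ∪ (V_3 \ V_2)` has six points and is invariant under `U`.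
As `λ` is odd, `U` leaves a block `B` through it invariant.  The space `V` is the union of `{0}` and the shells
`V_n \ V_{n-1}`: every set which is invariant under `U` and contains a point of a shell contains the shell.
Let `C` be the one of `B` and its complement which misses `V \ V_{d-1}`, and let `V_n` be the smallest of the
spaces which contains `C`; then `V_n \ V_{n-1} ⊆ C`, hence `|V_n| / 2 ≤ |C| ≤ |V_n| ≤ |V| / 2`.  The images of
`C` under `AGL(d, 2)` are the blocks or their complements, and form a `4`-design.  Counting the planes `{x, y, z,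
x + y + z}` gives the number `E` of the triples of distinct points of `C` whose sum is in `C`: with `c = |C|`
`(|V| - 3) E = c (c - 1) (c - 2) (c - 3)`.  But by the inequality of Cauchy and Schwarz
`(c (c - 1))^2 ≤ (|V_n| - 1) (E + 2 c (c - 1))`.  Together this is a contradiction if `c ≥ 7`; and `7 ≤ k` and
`k + 6 < |V|`, as the design is nontrivial.
-/

set_option autoImplicit false

namespace Pool.Agent.Results.MP_47ed89_co.OddAffine

/-- `𝓑` is the set of blocks of a nontrivial `t`-`(v, k, lam)` design, `v = |X|`: all blocks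
have `k` elements, every `t`-element set of points lies in exactly `lam` blocks, `t < k < v`, `0 < lam`, and
some `k`-element set is not a block. -/
def IsNontrivialDesign {X : Type*} [Fintype X] (t k lam : ℕ) (𝓑 : Set (Finset X)) : Prop :=
  (∀ B ∈ 𝓑, B.card = k) ∧
    (∀ T : Finset X, T.card = t → {B : Finset X | B ∈ 𝓑 ∧ T ⊆ B}.ncard = lam) ∧
    t < k ∧ k < Fintype.card X ∧ 0 < lam ∧ ∃ C : Finset X, C.card = k ∧ C ∉ 𝓑

/-- The group `G` of permutations of `X` is a block-transitive group of automorphisms of the design with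
the set `𝓑` of blocks: it maps blocks to blocks, and every block is mapped to every block. -/
def IsBlockTransitive {X : Type*} (G : Subgroup (Equiv.Perm X)) (𝓑 : Set (Finset X)) : Prop :=
  (∀ g ∈ G, ∀ B ∈ 𝓑, B.map g.toEmbedding ∈ 𝓑) ∧
    ∀ B ∈ 𝓑, ∀ B' ∈ 𝓑, ∃ g ∈ G, B' = B.map g.toEmbedding

/-- **`AGL(d, 2)` is not block-transitive on a nontrivial `6`-design with `λ` odd.** -/
theorem result (d k lam : ℕ) (hlam : Odd lam) (𝓑 : Set (Finset (Fin d → ZMod 2)))
    (h𝓑 : IsNontrivialDesign 6 k lam 𝓑) (G : Subgroup (Equiv.Perm (Fin d → ZMod 2)))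
    (hG : ∀ g, g ∈ G ↔ ∃ f : (Fin d → ZMod 2) ≃ᵃ[ZMod 2] (Fin d → ZMod 2), g = f.toEquiv) :
    ¬ IsBlockTransitive G 𝓑 := by
  classical
  rintro ⟨hinv, htr⟩
  obtain ⟨hB, hT, hk, hkv, hl, C, hC, hC'⟩ := h𝓑
  let 𝓒 : Finset (Finset (Fin d → ZMod 2)) := Finset.univ.filter (fun B => B ∈ 𝓑)
  have hmem : ∀ B, B ∈ 𝓒 ↔ B ∈ 𝓑 := fun B => by simp [𝓒]
  have hD : N86.S6.IsDesign 6 k lam 𝓒 := by
    refine ⟨fun B hB' => hB B ((hmem B).1 hB'), fun S hS => ?_⟩
    rw [← hT S hS, ← Set.ncard_coe_finset]
    congr 1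
    ext B
    simp [𝓒]
  obtain ⟨S, -, hSc⟩ := Finset.exists_subset_card_eq
    (s := (Finset.univ : Finset (Fin d → ZMod 2))) (n := 6) (by rw [Finset.card_univ]; omega)
  have h2 := hD.2 S hSc
  have h3 : 0 < (𝓒.filter (fun B => S ⊆ B)).card := by rw [h2]; exact hl
  obtain ⟨B0, hB0⟩ := Finset.card_pos.1 h3
  rw [Finset.mem_filter] at hB0
  refine N86.S10.agl_odd hD hlam ?_ ?_ hB0.1 hk hC (fun h => hC' ((hmem C).1 h))
  · intro f B hB'
    have h4 := hinv f.toEquiv ((hG _).2 ⟨f, rfl⟩) B ((hmem B).1 hB')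
    rw [Finset.map_eq_image] at h4
    exact (hmem _).2 h4
  · intro B hB' B' hB''
    obtain ⟨g, hg, h4⟩ := htr B ((hmem B).1 hB') B' ((hmem B').1 hB'')
    obtain ⟨f, rfl⟩ := (hG g).1 hg
    refine ⟨f, ?_⟩
    rw [Finset.map_eq_image] at h4
    exact h4

end Pool.Agent.Results.MP_47ed89_co.OddAffine
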