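import Pool.Agent.N86.S8.Main

/-!
# Block-transitive `6`-designs: finiteness for every odd `λ`

By Cameron and Praeger a block-transitive group of automorphisms of a nontrivial `6`-design is an affine
group `AGL(d, 2)` or lies between `PSL(2, q)` and `PΓL(2, q)`.  Here the number `v` of points is bounded
in terms of `λ`, if `λ` is odd: there are only finitely many nontrivial block-transitive
`6`-`(v, k, λ)` designs for every odd `λ`.

Proof.  If `λ` is odd, then a `6`-set which is invariant under an involution `τ` lies in a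
block which is invariant under `τ`; the groups `G ≥ PSL(2, q)` have about `q ^ 2 / 2` involutions, and each
of them has about `q ^ 3 / 48` invariant `6`-sets; hence there are many pairs (involution, invariant block), and
`k ^ 3` is at least about `q ^ 2 / (2 e m)`, where `m` is the number of the orbits of `G` on the blocks.
The generalised Fisher inequality then bounds `q`.  For `AGL(d, 2)`, the `λ` blocks through a suitable `6`-set
`S` cover all points outside of the affine hull of `S`.
-/

set_option autoImplicit false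

universe u

namespace Pool.Agent.Results.MP_47ed89_co.OddLambda

open Matrix

/-- `𝓑` is the set of blocks of a nontrivial `t`-`(v, k, lam)` design, `v = |X|`: all blocks
have `k` elements, every `t`-element set of points lies in exactly `lam` blocks, `t < k < v`, `0 < lam`, and
some `k`-element set is not a block. -/
def IsNontrivialDesign {X : Type*} [Fintype X] (t k lam : ℕ) (𝓑 : Set (Finset X)) : Prop :=
  (∀ B ∈ 𝓑, B.card = k) ∧
    (∀ T : Finset X, T.card = t → {B : Finset X | B ∈ 𝓑 ∧ T ⊆ B}.ncard = lam) ∧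
    t < k ∧ k < Fintype.card X ∧ 0 < lam ∧ ∃ C : Finset X, C.card = k ∧ C ∉ 𝓑

/-- The permutation `x ↦ (a x + b) / (c x + d)` of the projective line `K ∪ {∞}` given by a matrix
`(a, b; c, d)` of determinant one.  These permutations form the group `PSL(2, K)`. -/
def mobius {K : Type*} [Field K] [DecidableEq K] (A : SpecialLinearGroup (Fin 2) K) :
    Equiv.Perm (OnePoint K) :=
  MulAction.toPerm (SpecialLinearGroup.toGL A)

/-- `g` is a semilinear fractional transformation `x ↦ (a σ(x) + b) / (c σ(x) + d)` of the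
projective line `K ∪ {∞}`, where `σ` is an automorphism of the field `K` and `a d - b c ≠ 0`.
These permutations form the group `PΓL(2, K)`. -/
def IsSemilinear {K : Type*} [Field K] [DecidableEq K] (g : Equiv.Perm (OnePoint K)) : Prop :=
  ∃ (A : GL (Fin 2) K) (σ : K ≃+* K), ∀ x : OnePoint K, g x = A • x.map σ

/-- The set of the orbits of the group `G` of permutations of `X` on the set `𝓑` of finite subsets
of `X`. -/
def blockOrbits {X : Type*} (G : Subgroup (Equiv.Perm X)) (𝓑 : Set (Finset X)) :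
    Set (Set (Finset X)) :=
  {O | ∃ B ∈ 𝓑, O = {B' | ∃ g ∈ G, B' = B.map g.toEmbedding}}

/-- **Finiteness of block-transitive `6`-designs with odd `λ`.** -/
theorem result (k lam : ℕ) :
    (∀ (K : Type u) [Field K] [Fintype K] [DecidableEq K] (p e : ℕ), p.Prime →
      Fintype.card K = p ^ e → ∀ 𝓑 : Set (Finset (OnePoint K)), IsNontrivialDesign 6 k lam 𝓑 →
      Odd lam → ∀ G : Subgroup (Equiv.Perm (OnePoint K)),
      (∀ A : SpecialLinearGroup (Fin 2) K, mobius A ∈ G) → (∀ g ∈ G, IsSemilinear g) →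
      (∀ g ∈ G, ∀ B ∈ 𝓑, B.map g.toEmbedding ∈ 𝓑) →
        (Fintype.card K - 1) * (Fintype.card K - 3) * (Fintype.card K - 5) ≤
          2 * (e * (blockOrbits G 𝓑).ncard) * (Fintype.card K + 1) * (k * (k - 2) * (k - 4)) ∧
        Fintype.card K ≤ 64 * (lam * (e * (blockOrbits G 𝓑).ncard) ^ 2) ∧
        Fintype.card K ≤ (288 * (lam * (blockOrbits G 𝓑).ncard ^ 2)) ^ 2) ∧
    (∀ (d : ℕ) (𝓑 : Set (Finset (Fin d → ZMod 2))), IsNontrivialDesign 6 k lam 𝓑 →
      (∀ g : (Fin d → ZMod 2) ≃ᵃ[ZMod 2] (Fin d → ZMod 2), ∀ B ∈ 𝓑,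
        B.map g.toEquiv.toEmbedding ∈ 𝓑) →
        2 ^ d ≤ 32 ∨ (2 ^ d) ^ 3 ≤ 384 * lam ^ 7) := by
  classical
  constructor
  · intro K _ _ _ p e hp hq 𝓑 h𝓑 hlam G hPSL hPΓL hG
    obtain ⟨hB, hT, hk, hkv, hl, C, hC, hC'⟩ := h𝓑
    let 𝓒 : Finset (Finset (OnePoint K)) := Finset.univ.filter (fun B => B ∈ 𝓑)
    have hmem : ∀ B, B ∈ 𝓒 ↔ B ∈ 𝓑 := fun B => by simp [𝓒]
    have hD : N86.S6.IsDesign 6 k lam 𝓒 := by
      refine ⟨fun B hB' => hB B ((hmem B).1 hB'), fun S hS => ?_⟩
      rw [← hT S hS, ← Set.ncard_coe_finset]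
      congr 1
      ext B
      simp [𝓒]
    have hinv : ∀ g ∈ G, ∀ B ∈ 𝓒, B.image g ∈ 𝓒 := by
      intro g hg B hB'
      rw [hmem] at hB' ⊢
      have h1 := hG g hg B hB'
      rwa [Finset.map_eq_image] at h1
    have hfin : (blockOrbits G 𝓑).Finite := Set.toFinite _
    have hch : ∀ O : Set (Finset (OnePoint K)), ∃ B : Finset (OnePoint K), O ∈ blockOrbits G 𝓑 →
        O = {B' | ∃ g ∈ G, B' = B.map g.toEmbedding} := by
      intro O
      by_cases hO : O ∈ blockOrbits G 𝓑
      · obtain ⟨B, -, h⟩ := hO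
        exact ⟨B, fun _ => h⟩
      · exact ⟨∅, fun h => absurd h hO⟩
    choose f hf using hch
    let R : Finset (Finset (OnePoint K)) := hfin.toFinset.image f
    have hRc : R.card ≤ (blockOrbits G 𝓑).ncard := by
      rw [Set.ncard_eq_toFinset_card _ hfin]
      exact Finset.card_image_le
    have hR : ∀ B ∈ 𝓒, ∃ A ∈ R, ∃ g ∈ G, B = A.image g := by
      intro B hB'
      rw [hmem] at hB'
      have hO : {B' | ∃ g ∈ G, B' = B.map g.toEmbedding} ∈ blockOrbits G 𝓑 := ⟨B, hB', rfl⟩
      refine ⟨f _, Finset.mem_image_of_mem f ((hfin.mem_toFinset).2 hO), ?_⟩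
      have h1 := hf _ hO
      have h2 : B ∈ {B' | ∃ g ∈ G, B' = B.map g.toEmbedding} := by
        refine ⟨1, G.one_mem, ?_⟩
        rw [Finset.map_eq_image]
        symm
        exact Finset.image_id
      rw [h1] at h2
      obtain ⟨g, hg, h3⟩ := h2
      refine ⟨g, hg, ?_⟩
      rwa [Finset.map_eq_image] at h3
    have hkv' : k < Fintype.card K + 1 := by
      rw [← N86.S6.card_line]; exact hkv
    obtain ⟨h1, h2, -, h4⟩ := N86.S8.psl_main hD hlam G hPSL hPΓL hinv hR hp hq hk hC
      (fun h => hC' ((hmem C).1 h)) hkv'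
    have h5 : e * R.card ≤ e * (blockOrbits G 𝓑).ncard := Nat.mul_le_mul_left e hRc
    have h6 : Fintype.card K ≤ 64 * (lam * (e * (blockOrbits G 𝓑).ncard) ^ 2) :=
      h4.trans (Nat.mul_le_mul_left _ (Nat.mul_le_mul_left _ (Nat.pow_le_pow_left h5 2)))
    refine ⟨?_, h6, N86.S8.bound_no_e hp hq h6⟩
    have h7 : (((Fintype.card K - 1) * (Fintype.card K - 3) * (Fintype.card K - 5) : ℕ) : ℝ) =
        ((Fintype.card K : ℝ) - 1) * (Fintype.card K - 3) * (Fintype.card K - 5) := by
      rw [Nat.cast_mul, Nat.cast_mul, Nat.cast_sub (by omega), Nat.cast_sub (by omega),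
        Nat.cast_sub (by omega)]
      norm_num
    have h8 : ((k * (k - 2) * (k - 4) : ℕ) : ℝ) = (k : ℝ) * (k - 2) * (k - 4) := by
      rw [Nat.cast_mul, Nat.cast_mul, Nat.cast_sub (by omega), Nat.cast_sub (by omega)]
      norm_num
    have h9 : ((Fintype.card K - 1) * (Fintype.card K - 3) * (Fintype.card K - 5)) ≤
        2 * (e * R.card) * (Fintype.card K + 1) * (k * (k - 2) * (k - 4)) := by
      have h10 : (((Fintype.card K - 1) * (Fintype.card K - 3) * (Fintype.card K - 5) : ℕ) : ℝ) ≤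
          ((2 * (e * R.card) * (Fintype.card K + 1) * (k * (k - 2) * (k - 4)) : ℕ) : ℝ) := by
        rw [h7, Nat.cast_mul (2 * (e * R.card) * (Fintype.card K + 1)), h8]
        push_cast
        push_cast at h2
        exact h2
      exact_mod_cast h10
    refine h9.trans ?_
    exact Nat.mul_le_mul_right _ (Nat.mul_le_mul_right _ (Nat.mul_le_mul_left 2 h5))
  · intro d 𝓑 h𝓑 hG
    obtain ⟨hB, hT, hk, hkv, hl, C, hC, hC'⟩ := h𝓑
    let 𝓒 : Finset (Finset (Fin d → ZMod 2)) := Finset.univ.filter (fun B => B ∈ 𝓑)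
    have hmem : ∀ B, B ∈ 𝓒 ↔ B ∈ 𝓑 := fun B => by simp [𝓒]
    have hD : N86.S6.IsDesign 6 k lam 𝓒 := by
      refine ⟨fun B hB' => hB B ((hmem B).1 hB'), fun S hS => ?_⟩
      rw [← hT S hS, ← Set.ncard_coe_finset]
      congr 1
      ext B
      simp [𝓒]
    have hinv : ∀ g : (Fin d → ZMod 2) ≃ᵃ[ZMod 2] (Fin d → ZMod 2), ∀ B ∈ 𝓒, B.image g ∈ 𝓒 := by
      intro g B hB'
      rw [hmem] at hB' ⊢
      have h1 := hG g B hB'
      rwa [Finset.map_eq_image] at h1
    have hcard : Fintype.card (Fin d → ZMod 2) = 2 ^ d := by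
      rw [Fintype.card_fun, ZMod.card, Fintype.card_fin]
    rw [hcard] at hkv
    by_cases hd : d ≤ 5
    · left
      calc 2 ^ d ≤ 2 ^ 5 := Nat.pow_le_pow_right (by norm_num) hd
        _ = 32 := by norm_num
    · right
      have hv : 64 ≤ 2 ^ d := by
        calc 64 = 2 ^ 6 := by norm_num
          _ ≤ 2 ^ d := Nat.pow_le_pow_right (by norm_num) (by omega)
      have h1 := N86.S8.agl_cover hD hinv (by omega) hl (by omega)
      obtain ⟨S, -, hSc⟩ := Finset.exists_subset_card_eq
        (s := (Finset.univ : Finset (Fin d → ZMod 2))) (n := 6)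
        (by rw [Finset.card_univ, hcard]; omega)
      have h2 := hD.2 S hSc
      have h3 : 0 < (𝓒.filter (fun B => S ⊆ B)).card := by rw [h2]; exact hl
      obtain ⟨B0, hB0⟩ := Finset.card_pos.1 h3
      rw [Finset.mem_filter] at hB0
      have hgap := N86.S8.gap hD (by omega) hB0.1 hC (fun h => hC' ((hmem C).1 h))
      rw [hcard] at hgap
      have h4 := N86.S8.fisher' hD (by omega) (by rw [hcard]; omega) hB0.1
      rw [hcard] at h4
      have h5 := N86.S8.fisher_real (v := 2 ^ d) (by omega) (by omega) h4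
      exact N86.S8.agl_bound hv (by omega) (by omega) h1 h5

end Pool.Agent.Results.MP_47ed89_co.OddLambda
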