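import Pool.Agent.N86.S9.Final

/-!
# Block-transitive `6`-designs on `q + 1` points, `q` and `λ` odd

By Cameron and Praeger a block-transitive group of automorphisms of a nontrivial `6`-design is an affine
group `AGL(d, 2)` or lies between `PSL(2, q)` and `PΓL(2, q)`.  Here let `q` and `λ` be odd and let the group `G`
lie in `PGL(2, q)`, which is always the case if `q` is a prime.  For every `k` the only group which remains is
`PSL(2, q)` with `q ≡ 3 (mod 4)`.

Proof for `q ≡ 1 (mod 4)`.  A block-transitive group is `3`-homogeneous, and `PSL(2, q)` is not; hence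
`G = PGL(2, q)`.  Let `a` be a nonsquare and let `W` be the four-group of `x ↦ - x` and `x ↦ a / x`.  Its orbits
are `{∞, 0}` and sets of four points.  As `λ` is odd, each of the `6`-sets `{∞, 0, x, -x, a / x, - a / x}` lies
in a block which is invariant under `W`.  But `W` leaves at most one block `B` invariant:  a Sylow `2`-subgroup
of the stabilizer of `B` above `W` leaves a pair invariant, as `q + 1 ≡ 2 (mod 4)`; this pair is `{∞, 0}`.
As the stabilizers are conjugate, and one of them contains a four-group of `PSL(2, q)`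
(the octahedral `6`-set), the Sylow subgroup contains `x ↦ c x` for a nonsquare `c`; hence it is the
unique Sylow `2`-subgroup `P` of `PGL(2, q)` above `W`, and `P` is its own normalizer.  By Sylow's theorem all blocks
which are invariant under `P` coincide.  So one block contains all points, a contradiction.

Proof for `q ≡ 3 (mod 4)` and `G = PGL(2, q)`.  Let `W` be the four-group of `x ↦ - x` and `x ↦ - 1 / x`.  The
`2`-subgroups above `W` centralize `x ↦ - 1 / x`, as the number of the involutions without fixed points is odd; the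
centralizer is dihedral, and by Sylow's theorem at most two blocks are invariant under `W`.
The `6`-sets `{∞, 0, x, -x, 1 / x, - 1 / x}` and `{1, -1, x, -x, 1 / x, - 1 / x}` lie in an odd number of them; it
follows that `2 k = q + 5`.  Then `(q - 2) (q - 3) (q - 4)` does not divide `k (k - 1) ... (k - 5)`.
-/

set_option autoImplicit false

namespace Pool.Agent.Results.MP_47ed89_co.OddOrder

open Matrix

/-- `𝓑` is the set of blocks of a nontrivial `t`-`(v, k, lam)` design, `v = |X|`: all blocks
have `k` elements, every `t`-element set of points lies in exactly `lam` blocks, `t < k < v`, `0 < lam`, and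
some `k`-element set is not a block. -/
def IsNontrivialDesign {X : Type*} [Fintype X] (t k lam : ℕ) (𝓑 : Set (Finset X)) : Prop :=
  (∀ B ∈ 𝓑, B.card = k) ∧
    (∀ T : Finset X, T.card = t → {B : Finset X | B ∈ 𝓑 ∧ T ⊆ B}.ncard = lam) ∧
    t < k ∧ k < Fintype.card X ∧ 0 < lam ∧ ∃ C : Finset X, C.card = k ∧ C ∉ 𝓑

/-- The permutation `x ↦ (a x + b) / (c x + d)` of the projective line `K ∪ {∞}` given by a matrix
`(a, b; c, d)` of determinant one.  These permutations form the group `PSL(2, K)`. -/
def mobius {K : Type*} [Field K] [DecidableEq K] (A : SpecialLinearGroup (Fin 2) K) :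
    Equiv.Perm (OnePoint K) :=
  MulAction.toPerm (SpecialLinearGroup.toGL A)

/-- `g` is a fractional linear transformation `x ↦ (a x + b) / (c x + d)`, `a d - b c ≠ 0`, of the
projective line `K ∪ {∞}`.  These permutations form the group `PGL(2, K)`. -/
def IsProjective {K : Type*} [Field K] [DecidableEq K] (g : Equiv.Perm (OnePoint K)) : Prop :=
  ∃ A : GL (Fin 2) K, ∀ x : OnePoint K, g x = A • x

/-- `g` is a semilinear fractional transformation `x ↦ (a σ(x) + b) / (c σ(x) + d)` of the
projective line `K ∪ {∞}`, where `σ` is an automorphism of the field `K` and `a d - b c ≠ 0`.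
These permutations form the group `PΓL(2, K)`. -/
def IsSemilinear {K : Type*} [Field K] [DecidableEq K] (g : Equiv.Perm (OnePoint K)) : Prop :=
  ∃ (A : GL (Fin 2) K) (σ : K ≃+* K), ∀ x : OnePoint K, g x = A • x.map σ

/-- The group `G` of permutations of `X` is a block-transitive group of automorphisms of the design with
the set `𝓑` of blocks: it maps blocks to blocks, and every block is mapped to every block. -/
def IsBlockTransitive {X : Type*} (G : Subgroup (Equiv.Perm X)) (𝓑 : Set (Finset X)) : Prop :=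
  (∀ g ∈ G, ∀ B ∈ 𝓑, B.map g.toEmbedding ∈ 𝓑) ∧
    ∀ B ∈ 𝓑, ∀ B' ∈ 𝓑, ∃ g ∈ G, B' = B.map g.toEmbedding

/-- **Block-transitive `6`-designs on `q + 1` points, `q` and `λ` odd:** a block-transitive group between
`PSL(2, q)` and `PGL(2, q)`, or between `PSL(2, q)` and `PΓL(2, q)` if `q` is a prime, is `PSL(2, q)` and
`q ≡ 3 (mod 4)`. -/
theorem result {K : Type*} [Field K] [Fintype K] [DecidableEq K] (hq : Odd (Fintype.card K))
    (k lam : ℕ) (hlam : Odd lam) (𝓑 : Set (Finset (OnePoint K)))
    (h𝓑 : IsNontrivialDesign 6 k lam 𝓑) (G : Subgroup (Equiv.Perm (OnePoint K)))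
    (hPSL : ∀ A : SpecialLinearGroup (Fin 2) K, mobius A ∈ G)
    (hG : (∀ g ∈ G, IsProjective g) ∨ ((Fintype.card K).Prime ∧ ∀ g ∈ G, IsSemilinear g))
    (hGB : IsBlockTransitive G 𝓑) :
    Fintype.card K % 4 = 3 ∧ ∀ g ∈ G, ∃ A : SpecialLinearGroup (Fin 2) K, g = mobius A := by
  classical
  obtain ⟨hinv, htr⟩ := hGB
  obtain ⟨hB, hT, hk, hkv, hl, C, hC, hC'⟩ := h𝓑
  let 𝓒 : Finset (Finset (OnePoint K)) := Finset.univ.filter (fun B => B ∈ 𝓑)
  have hmem : ∀ B, B ∈ 𝓒 ↔ B ∈ 𝓑 := fun B => by simp [𝓒]
  have hD : N86.S6.IsDesign 6 k lam 𝓒 := by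
    refine ⟨fun B hB' => hB B ((hmem B).1 hB'), fun S hS => ?_⟩
    rw [← hT S hS, ← Set.ncard_coe_finset]
    congr 1
    ext B
    simp [𝓒]
  have hG' : ∀ g ∈ G, ∃ A : GL (Fin 2) K, g = N86.S46.glPerm A := by
    intro g hg
    rcases hG with h | ⟨hp, h⟩
    · obtain ⟨A, hA⟩ := h g hg
      exact ⟨A, Equiv.ext hA⟩
    · obtain ⟨A, σ, hA⟩ := h g hg
      refine ⟨A, Equiv.ext fun x => ?_⟩
      rw [hA x]
      show A • x.map σ = A • x
      congr 1
      cases x with
      | infty => rfl
      | coe x =>
        show ((σ x : K) : OnePoint K) = (x : OnePoint K)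
        rw [N86.S9.aut_trivial hp σ x]
  have hinv' : ∀ g ∈ G, ∀ B ∈ 𝓒, B.image g ∈ 𝓒 := by
    intro g hg B hB'
    rw [hmem] at hB' ⊢
    have h1 := hinv g hg B hB'
    rwa [Finset.map_eq_image] at h1
  obtain ⟨S, -, hSc⟩ := Finset.exists_subset_card_eq (s := (Finset.univ : Finset (OnePoint K)))
    (n := 6) (by rw [Finset.card_univ]; omega)
  have h2 := hD.2 S hSc
  have h3 : 0 < (𝓒.filter (fun B => S ⊆ B)).card := by rw [h2]; exact hl
  obtain ⟨B0, hB0⟩ := Finset.card_pos.1 h3
  rw [Finset.mem_filter] at hB0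
  refine N86.S9.odd_none hD hlam hk (by rw [← N86.S6.card_line]; exact hkv) hq hPSL hG' hinv'
    hB0.1 ?_ hC (fun h => hC' ((hmem C).1 h))
  intro B hB'
  obtain ⟨g, hg, h4⟩ := htr B0 ((hmem B0).1 hB0.1) B ((hmem B).1 hB')
  refine ⟨g, hg, ?_⟩
  rwa [Finset.map_eq_image] at h4

end Pool.Agent.Results.MP_47ed89_co.OddOrder
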