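import Pool.Agent.N86.S8.AglSmall

/-!
# No block-transitive `6`-designs with small odd `λ`

By Cameron and Praeger a block-transitive group of automorphisms of a nontrivial `6`-design is an affine
group `AGL(d, 2)` or lies between `PSL(2, q)` and `PΓL(2, q)`.  Here both cases are excluded for every
odd `λ ≤ 151`.

Proof.  Let `PSL(2, q) ≤ G ≤ PΓL(2, q)` and `q = p ^ e`.  As `λ` is odd, a `6`-set which is invariant under an
involution lies in an invariant block; counting pairs (involution, invariant block) gives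
`(q - 1) (q - 3) (q - 5) ≤ 2 e (q + 1) k (k - 2) (k - 4)`.  The generalised Fisher inequality gives
`k (k - 1) ... (k - 5) ≤ 6 λ (q - 2) (q - 3) (q - 4)`, hence `q ≤ 64 λ e ^ 2`.  The number of blocks divides
the order of `PΓL(2, q)`, hence `(q - 2) (q - 3) (q - 4)` divides `e k (k - 1) ... (k - 5)`.  A finite computation
in the kernel leaves eight pairs `(q, k)`; these are excluded by parity conditions, divisibility, and
the exact form of the count.  For `AGL(d, 2)` the `λ` blocks through a suitable `6`-set cover all points outside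
of a `5`-dimensional subspace, hence `2 ^ d ≤ 32 + λ (k - 6)`, and a finite computation remains.
-/

set_option autoImplicit false

universe u

namespace Pool.Agent.Results.MP_47ed89_co.SmallOddLambda

open Matrix

/-- `𝓑` is the set of blocks of a nontrivial `t`-`(v, k, lam)` design, `v = |X|`: all blocks
have `k` elements, every `t`-element set of points lies in exactly `lam` blocks, `t < k < v`, `0 < lam`, and
some `k`-element set is not a block. -/
def IsNontrivialDesign {X : Type*} [Fintype X] (t k lam : ℕ) (𝓑 : Set (Finset X)) : Prop :=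
  (∀ B ∈ 𝓑, B.card = k) ∧
    (∀ T : Finset X, T.card = t → {B : Finset X | B ∈ 𝓑 ∧ T ⊆ B}.ncard = lam) ∧
    t < k ∧ k < Fintype.card X ∧ 0 < lam ∧ ∃ C : Finset X, C.card = k ∧ C ∉ 𝓑

/-- The permutation `x ↦ (a x + b) / (c x + d)` of the projective line `K ∪ {∞}` given by a matrix
`(a, b; c, d)` of determinant one.  These permutations form the group `PSL(2, K)`. -/
def mobius {K : Type*} [Field K] [DecidableEq K] (A : SpecialLinearGroup (Fin 2) K) :
    Equiv.Perm (OnePoint K) :=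
  MulAction.toPerm (SpecialLinearGroup.toGL A)

/-- `g` is a semilinear fractional transformation `x ↦ (a σ(x) + b) / (c σ(x) + d)` of the
projective line `K ∪ {∞}`, where `σ` is an automorphism of the field `K` and `a d - b c ≠ 0`.
These permutations form the group `PΓL(2, K)`. -/
def IsSemilinear {K : Type*} [Field K] [DecidableEq K] (g : Equiv.Perm (OnePoint K)) : Prop :=
  ∃ (A : GL (Fin 2) K) (σ : K ≃+* K), ∀ x : OnePoint K, g x = A • x.map σ

/-- The group `G` of permutations of `X` is a block-transitive group of automorphisms of the design with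
the set `𝓑` of blocks: it maps blocks to blocks, and every block is mapped to every block. -/
def IsBlockTransitive {X : Type*} (G : Subgroup (Equiv.Perm X)) (𝓑 : Set (Finset X)) : Prop :=
  (∀ g ∈ G, ∀ B ∈ 𝓑, B.map g.toEmbedding ∈ 𝓑) ∧
    ∀ B ∈ 𝓑, ∀ B' ∈ 𝓑, ∃ g ∈ G, B' = B.map g.toEmbedding

/-- a set of blocks as a `Finset`, with the facts which are used below -/
lemma finset_form {X : Type*} [Fintype X] [DecidableEq X] {k lam : ℕ} {𝓑 : Set (Finset X)}
    (h𝓑 : IsNontrivialDesign 6 k lam 𝓑) {G : Subgroup (Equiv.Perm X)}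
    (hG : IsBlockTransitive G 𝓑) :
    ∃ 𝓒 : Finset (Finset X), N86.S6.IsDesign 6 k lam 𝓒 ∧
      (∀ g ∈ G, ∀ B ∈ 𝓒, B.image g ∈ 𝓒) ∧
      (∃ B0 ∈ 𝓒, ∀ B ∈ 𝓒, ∃ g ∈ G, B = B0.image g) ∧ ∃ C : Finset X, C.card = k ∧ C ∉ 𝓒 := by
  classical
  obtain ⟨hB, hT, hk, hkv, hl, C, hC, hC'⟩ := h𝓑
  obtain ⟨hinv, htr⟩ := hG
  let 𝓒 : Finset (Finset X) := Finset.univ.filter (fun B => B ∈ 𝓑)
  have hmem : ∀ B, B ∈ 𝓒 ↔ B ∈ 𝓑 := fun B => by simp [𝓒]
  have hD : N86.S6.IsDesign 6 k lam 𝓒 := by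
    refine ⟨fun B hB' => hB B ((hmem B).1 hB'), fun S hS => ?_⟩
    rw [← hT S hS, ← Set.ncard_coe_finset]
    congr 1
    ext B
    simp [𝓒]
  refine ⟨𝓒, hD, ?_, ?_, C, hC, fun h => hC' ((hmem C).1 h)⟩
  · intro g hg B hB'
    rw [hmem] at hB' ⊢
    have h1 := hinv g hg B hB'
    rwa [Finset.map_eq_image] at h1
  · obtain ⟨S, -, hSc⟩ := Finset.exists_subset_card_eq (s := (Finset.univ : Finset X)) (n := 6)
      (by rw [Finset.card_univ]; omega)
    have h2 := hD.2 S hSc
    have h3 : 0 < (𝓒.filter (fun B => S ⊆ B)).card := by rw [h2]; exact hl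
    obtain ⟨B0, hB0⟩ := Finset.card_pos.1 h3
    rw [Finset.mem_filter] at hB0
    refine ⟨B0, hB0.1, ?_⟩
    intro B hB'
    obtain ⟨g, hg, h4⟩ := htr B0 ((hmem B0).1 hB0.1) B ((hmem B).1 hB')
    refine ⟨g, hg, ?_⟩
    rwa [Finset.map_eq_image] at h4

/-- **No block-transitive `6`-designs with odd `λ ≤ 151`.** -/
theorem result (k lam : ℕ) (hlam : lam ≤ 151) :
    (Odd lam → ∀ (K : Type u) [Field K] [Fintype K] [DecidableEq K]
      (𝓑 : Set (Finset (OnePoint K))), IsNontrivialDesign 6 k lam 𝓑 →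
      ∀ G : Subgroup (Equiv.Perm (OnePoint K)),
      (∀ A : SpecialLinearGroup (Fin 2) K, mobius A ∈ G) → (∀ g ∈ G, IsSemilinear g) →
        ¬ IsBlockTransitive G 𝓑) ∧
    (∀ (d : ℕ) (𝓑 : Set (Finset (Fin d → ZMod 2))), IsNontrivialDesign 6 k lam 𝓑 →
      ∀ G : Subgroup (Equiv.Perm (Fin d → ZMod 2)),
      (∀ g, g ∈ G ↔ ∃ f : (Fin d → ZMod 2) ≃ᵃ[ZMod 2] (Fin d → ZMod 2), g = f.toEquiv) →
        ¬ IsBlockTransitive G 𝓑) := by
  classical
  constructor
  · intro hodd K _ _ _ 𝓑 h𝓑 G hPSL hPΓL hG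
    obtain ⟨𝓒, hD, hinv, ⟨B0, hB0, htr⟩, C, hC, hC'⟩ := finset_form h𝓑 hG
    obtain ⟨-, -, hk, hkv, -, -⟩ := h𝓑
    exact N86.S8.psl_none hD hodd hlam G hPSL hPΓL hinv hB0 htr hk hC hC'
      (by rw [← N86.S6.card_line]; exact hkv)
  · intro d 𝓑 h𝓑 G hGd hG
    obtain ⟨𝓒, hD, hinv, ⟨B0, hB0, htr⟩, C, hC, hC'⟩ := finset_form h𝓑 hG
    obtain ⟨-, -, hk, hkv, hl, -⟩ := h𝓑
    refine N86.S8.agl_none hD hl hlam ?_ hB0 ?_ hk hC hC'
    · intro f B hB
      exact hinv _ ((hGd _).2 ⟨f, rfl⟩) B hB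
    · intro B hB
      obtain ⟨g, hg, h⟩ := htr B hB
      obtain ⟨f, hf⟩ := (hGd g).1 hg
      refine ⟨f, ?_⟩
      rw [h, hf]
      rfl

end Pool.Agent.Results.MP_47ed89_co.SmallOddLambda
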